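import Pool.Agent.Helper38.PUR.Lit

/-! CARRIERS: one partition of the space, a function of `R` and the base, known to all conditions, which carries optimal
K-forms of countably many Gaussian families at once (all degrees, all projections, all truncations). -/

set_option autoImplicit false

namespace Pool.Agent.Helper66.NJ

open Finset Filter Topology Matrix Pool.Agent.Helper69.RK Pool.Agent.Helper31.EC Pool.Agent.Helper40.EL
open Pool.Agent.Helper33.LIT Pool.Agent.Helper89.LX Pool.Agent.Helper49.KL Pool.Agent.Helper38.NSL Pool.Agent.Helper38.PUR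

noncomputable section

variable {S : Sp} {R : ∀ k, Setoid (S.F k).Ω} {κ : Type}

/-- the joins of the first members -/
def fjn (Z : ℕ → ∀ k, Setoid (S.F k).Ω) : ℕ → ∀ k, Setoid (S.F k).Ω
  | 0 => Z 0
  | j + 1 => fun k => fjn Z j k ⊓ Z (j + 1) k

theorem fjn_le (Z : ℕ → ∀ k, Setoid (S.F k).Ω) (k : ℕ) : ∀ j i, i ≤ j → fjn Z j k ≤ Z i k := by
  intro j
  induction j with
  | zero =>
    intro i hi
    have : i = 0 := by omega
    subst this
    exact le_rfl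
  | succ j ih =>
    intro i hi
    rcases Nat.lt_or_ge i (j + 1) with h1 | h1
    · exact inf_le_left.trans (ih i (by omega))
    · have : i = j + 1 := by omega
      subst this
      exact inf_le_right

theorem fjn_lit {Z : ℕ → ∀ k, Setoid (S.F k).Ω} (hR : ∀ j, ∀ᶠ k in UF, R k ⊓ (S.F k).Z ≤ Z j k) (j : ℕ) :
    ∀ᶠ k in UF, R k ⊓ (S.F k).Z ≤ fjn Z j k := by
  induction j with
  | zero => exact hR 0
  | succ j ih => filter_upwards [ih, hR (j + 1)] with k a b using le_inf a b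

theorem fjn_ple {Z : ℕ → ∀ k, Setoid (S.F k).Ω} {B : Part S} (hA : ∀ j, PLe (fun k => fc (Z j k)) B) (j : ℕ) :
    PLe (fun k => fc (fjn Z j k)) B := by
  induction j with
  | zero => exact hA 0
  | succ j ih =>
    have e : (fun k => (fc (fjn Z (j + 1) k) : FL (S.F k))) = fun k => fc (fjn Z j k) ⊔ fc (Z (j + 1) k) :=
      funext fun k => fc_inf _ _
    rw [e]
    exact PLe.sup_le ih (hA (j + 1))

/-- SLOW JOIN of countably many literal labels -/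
theorem exists_join [Countable κ] {A : κ → Part S} (Z : ℕ → ∀ k, Setoid (S.F k).Ω)
    (hR : ∀ j, ∀ᶠ k in UF, R k ⊓ (S.F k).Z ≤ Z j k) (hA : ∀ j, (Lab.ofZ (Z j)).DMf A) :
    ∃ W : ∀ k, Setoid (S.F k).Ω, (∀ᶠ k in UF, R k ⊓ (S.F k).Z ≤ W k) ∧ (Lab.ofZ W).DMf A ∧
      ∀ j, ∀ᶠ k in UF, W k ≤ Z j k := by
  obtain ⟨c, hc⟩ := exists_injective_nat κ
  have hfin : ∀ j : ℕ, {i : κ | c i ≤ j}.Finite := by
    intro j
    apply Set.Finite.of_finite_image (f := c) _ hc.injOn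
    apply (Set.finite_Iic j).subset
    rintro x ⟨i, hi, rfl⟩
    exact hi
  have hP : ∀ j i, PLe (fun k => fc (fjn Z j k)) (A i) := fun j i =>
    fjn_ple (fun j => (Lab.ofZ_DMf (Z j)).mp (hA j) i) j
  have hG : ∀ j : ℕ, ∀ᶠ k in UF, (∀ i ∈ {i : κ | c i ≤ j}, h (fc (fjn Z j k)) (A i k) / (S.F k).n ≤
      1 / ((j : ℝ) + 1)) ∧ R k ⊓ (S.F k).Z ≤ fjn Z j k := by
    intro j
    have h5 : (0 : ℝ) < 1 / ((j : ℝ) + 1) := by positivity
    apply Filter.Eventually.and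
    · rw [Filter.eventually_all_finite (hfin j)]
      intro i _
      filter_upwards [(hP j i).eventually (gt_mem_nhds h5)] with k hk using hk.le
    · exact fjn_lit hR j
  obtain ⟨W, J, hJ, hW, hG'⟩ := dia' (X := fun k => Setoid (S.F k).Ω) (fun j k => fjn Z j k) (fun j k x =>
      (∀ i ∈ {i : κ | c i ≤ j}, h (fc x) (A i k) / (S.F k).n ≤ 1 / ((j : ℝ) + 1)) ∧ R k ⊓ (S.F k).Z ≤ x) hG
  have h0 : Tendsto (fun k => 1 / ((J k : ℝ) + 1)) UF (𝓝 0) := tendsto_one_div_add_atTop_nhds_zero_nat.comp hJ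
  refine ⟨W, by filter_upwards [hG'] with k hk using hk.2, (Lab.ofZ_DMf W).mpr fun i => ?_, fun j => ?_⟩
  · refine tendsto_of_tendsto_of_tendsto_of_le_of_le' tendsto_const_nhds h0 ?_ ?_
    · exact Eventually.of_forall fun k => div_nonneg (h_nonneg _ _) (S.F k).pos.le
    · filter_upwards [hG', hJ.eventually (eventually_ge_atTop (c i))] with k hk h5 using hk.1 i h5
  · filter_upwards [hJ.eventually (eventually_ge_atTop j)] with k hk
    rw [hW k]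
    exact fjn_le Z k (J k) j hk

section form
variable {ι : Type} [Fintype ι] [DecidableEq ι] (Φ : Gau S ι)

/-- the function is known to the partition and the base -/
def Kn1 {F : FSp} {β : Type} (W : Setoid F.Ω) (G : F.Ω → β) : Prop :=
  ∀ ω ω', F.μ ω ≠ 0 → F.μ ω' ≠ 0 → W ω ω' → F.Z ω ω' → G ω = G ω'

open Classical in
/-- the function, or the unit matrix if it is not known to the partition -/
def gG {F : FSp} (W : Setoid F.Ω) (G : F.Ω → Matrix ι ι ℝ) : F.Ω → Matrix ι ι ℝ := if Kn1 W G then G else fun _ => 1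

omit [Fintype ι] in
theorem gG_eq {F : FSp} {W : Setoid F.Ω} {G : F.Ω → Matrix ι ι ℝ} (h : Kn1 W G) : gG W G = G := if_pos h

theorem gG_kn {F : FSp} (W : Setoid F.Ω) (G : F.Ω → Matrix ι ι ℝ) : Kn1 W (gG W G) := by
  by_cases h : Kn1 W G
  · rw [gG_eq h]
    exact h
  · have e : gG W G = fun _ => 1 := if_neg h
    rw [e]
    exact fun _ _ _ _ _ _ => rfl

/-- a matrix-valued function of the space as a label with form, label `W` -/
def zFD {F : FSp} (W : Setoid F.Ω) (G : F.Ω → Matrix ι ι ℝ) : FD F ι where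
  l := ⟨(FLab.triv F).T, (FLab.triv F).p, (FLab.triv F).hn, W⟩
  g := gG W G
  g' := gG W G
  meas := fun ω ω' h1 h2 h3 h4 => ⟨gG_kn W G ω ω' h1 h2 h3 h4, gG_kn W G ω ω' h1 h2 h3 h4⟩

theorem zFD_g {F : FSp} {W : Setoid F.Ω} {G : F.Ω → Matrix ι ι ℝ} (h : Kn1 W G) : (zFD W G).g = G := gG_eq h

theorem zFD_g' {F : FSp} {W : Setoid F.Ω} {G : F.Ω → Matrix ι ι ℝ} (h : Kn1 W G) : (zFD W G).g' = G := gG_eq h

theorem zFD_l (W : ∀ k, Setoid (S.F k).Ω) (G : ∀ k, (S.F k).Ω → Matrix ι ι ℝ) :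
    (fun k => (zFD (W k) (G k)).l) = Lab.ofZ W := rfl

theorem zFD_sc {F : FSp} {W : Setoid F.Ω} {G : F.Ω → Matrix ι ι ℝ} (h : Kn1 W G) :
    (zFD W G).sc = ∑ ω, F.μ ω * Real.logb 2 (G ω).det := by
  have h1 : (zFD W G).sc = ∑ ω, F.μ ω * Real.logb 2 (gG W G ω).det := rfl
  rw [h1, gG_eq h]

omit [DecidableEq ι] in
theorem Kn1.mono {F : FSp} {β : Type} {W W' : Setoid F.Ω} {G : F.Ω → β} (h : Kn1 W' G) (hW : W ≤ W') : Kn1 W G :=
  fun ω ω' h1 h2 h3 h4 => h ω ω' h1 h2 (hW h3) h4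

omit [DecidableEq ι] in
/-- the form of a literal label is known to the partition -/
theorem litFD_kn {x : ∀ k, FD (S.F k) ι} (σ : Sec (S := S) fun k => (x k).l) (k : ℕ) : Kn1 (σ.Z k) ((litFD σ k).g) :=
  fun ω ω' h1 h2 h3 h4 => ((litFD σ k).meas ω ω' h1 h2 h3 h4).1

/-- a literal admissible K-form over a finer literal label -/
theorem adf_zFD {A : κ → Part S} {Z W : ∀ k, Setoid (S.F k).Ω} {G : ∀ k, (S.F k).Ω → Matrix ι ι ℝ} [Finite κ]
    (hG : ∀ᶠ k in UF, Kn1 (Z k) (G k)) (hZ : Φ.AdfK (LC.kz fun k => fc (R k)) A (fun k => zFD (Z k) (G k)))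
    (hW : ∀ᶠ k in UF, W k ≤ Z k) (hR : ∀ᶠ k in UF, R k ⊓ (S.F k).Z ≤ W k) (hA : (Lab.ofZ W).DMf A) :
    Φ.AdfK (LC.kz fun k => fc (R k)) A (fun k => zFD (W k) (G k)) := by
  refine ⟨fun η hη => ?_, kz_ofZ hR⟩
  have hL : ∀ᶠ k in UF, ∀ i, ((Lab.ofZ W) k).leak (A i k) ≤ η * (S.F k).n := by
    rw [eventually_all]
    intro i
    filter_upwards [(hA i).eventually (gt_mem_nhds hη)] with k hk
    exact ((div_lt_iff₀ (S.F k).pos).mp hk).le
  filter_upwards [hL, hZ.1 η hη, hG, hW] with k h1 h2 h3 h4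
  have h5 : Kn1 (W k) (G k) := h3.mono h4
  have e1 : gG (Z k) (G k) = G k := gG_eq h3
  have e2 : gG (W k) (G k) = G k := gG_eq h5
  obtain ⟨-, b1, b2, b3⟩ := h2
  have c1 : ∀ ω, (S.F k).μ ω ≠ 0 → Cpd (Φ.cp k) (gG (Z k) (G k) ω) ∧ Cpd (Φ.cp k) (gG (Z k) (G k) ω) := b1
  have c2 : (S.F k).pb (fun ω => ¬ Φ.φ k ω (gG (Z k) (G k) ω) ≤ 2 ^ (η * (S.F k).n)) ≤ η := b2
  rw [e1, ← e2] at c1 c2
  exact ⟨h1, c1, c2, c2⟩

/-- a literal optimal K-form over a finer literal label -/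
theorem opt_zFD {A : κ → Part S} {Z W : ∀ k, Setoid (S.F k).Ω} {G : ∀ k, (S.F k).Ω → Matrix ι ι ℝ} [Finite κ]
    (hG : ∀ᶠ k in UF, Kn1 (Z k) (G k)) (hZ : Φ.OptfK (LC.kz fun k => fc (R k)) A (fun k => zFD (Z k) (G k)))
    (hW : ∀ᶠ k in UF, W k ≤ Z k) (hR : ∀ᶠ k in UF, R k ⊓ (S.F k).Z ≤ W k) (hA : (Lab.ofZ W).DMf A) :
    Φ.OptfK (LC.kz fun k => fc (R k)) A (fun k => zFD (W k) (G k)) := by
  have h1 := adf_zFD Φ hG hZ.1 hW hR hA
  refine ⟨h1, fun y hy => (hZ.2 y hy).trans (le_of_eq (ul_congr ?_))⟩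
  filter_upwards [hG, hW] with k h3 h4
  rw [zFD_sc h3, zFD_sc (h3.mono h4)]

/-- every optimal K-form is literal -/
theorem exists_zFD [Finite κ] (A : κ → Part S) (R : ∀ k, Setoid (S.F k).Ω) :
    ∃ (Z : ∀ k, Setoid (S.F k).Ω) (G : ∀ k, (S.F k).Ω → Matrix ι ι ℝ), (∀ᶠ k in UF, R k ⊓ (S.F k).Z ≤ Z k) ∧
      (∀ k, Kn1 (Z k) (G k)) ∧ Φ.OptfK (LC.kz fun k => fc (R k)) A (fun k => zFD (Z k) (G k)) := by
  obtain ⟨x, hx⟩ := Φ.exists_optfK (LC.kz fun k => fc (R k)) A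
  obtain ⟨σ, h1, h2⟩ := exists_litD Φ hx
  refine ⟨σ.Z, fun k => (litFD σ k).g, h1, litFD_kn σ, ?_⟩
  have e : (fun k => zFD (σ.Z k) ((litFD σ k).g)) = litFD σ := by
    funext k
    have h3 : zFD (σ.Z k) ((litFD σ k).g) = ⟨(litFD σ k).l, (zFD (σ.Z k) ((litFD σ k).g)).g,
      (zFD (σ.Z k) ((litFD σ k).g)).g', (zFD (σ.Z k) ((litFD σ k).g)).meas⟩ := rfl
    have e1 : (zFD (σ.Z k) ((litFD σ k).g)).g = (litFD σ k).g := zFD_g (litFD_kn σ k)
    have e2 : (zFD (σ.Z k) ((litFD σ k).g)).g' = (litFD σ k).g' := zFD_g' (litFD_kn σ k)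
    rw [h3]
    congr 1
  rw [e]
  exact h2

end form

/-- CARRIER THEOREM: one partition `W` of the space, a function of `R` and the base, known to all conditions, which
carries optimal K-forms of countably many families -/
theorem exists_carrier [Finite κ] (A : κ → Part S) (R : ∀ k, Setoid (S.F k).Ω) {α : Type} [Countable α] [Nonempty α]
    (J : α → Type) [∀ a, Fintype (J a)] [∀ a, DecidableEq (J a)] (Φ : ∀ a, Gau S (J a)) :
    ∃ W : ∀ k, Setoid (S.F k).Ω, (∀ᶠ k in UF, R k ⊓ (S.F k).Z ≤ W k) ∧ (Lab.ofZ W).DMf A ∧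
      ∀ a, ∃ G : ∀ k, (S.F k).Ω → Matrix (J a) (J a) ℝ, (∀ᶠ k in UF, Kn1 (W k) (G k)) ∧
        (Φ a).OptfK (LC.kz fun k => fc (R k)) A (fun k => zFD (W k) (G k)) := by
  obtain ⟨f, hf⟩ := exists_surjective_nat α
  choose Z G h1 h2 h3 using fun a => exists_zFD (Φ a) A R
  obtain ⟨W, w1, w2, w3⟩ := exists_join (A := A) (fun j => Z (f j)) (fun j => h1 (f j)) (fun j => by
    have := Gau.AdfK.dm (Φ (f j)) (h3 (f j)).1
    exact this)
  refine ⟨W, w1, w2, fun a => ?_⟩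
  obtain ⟨j, rfl⟩ := hf a
  exact ⟨G (f j), by filter_upwards [w3 j] with k hk using (h2 (f j) k).mono hk,
    opt_zFD (Φ (f j)) (Eventually.of_forall (h2 (f j))) (h3 (f j)) (w3 j) w1 w2⟩

end

end Pool.Agent.Helper66.NJ
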