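import Pool.Agent.Helper66.NJ.Cnt
import Pool.Agent.Helper87.NJ.St
import Pool.Agent.Helper3.NJ.Fulb
import Pool.Agent.Helper17.KL.Cost
import Pool.Agent.Helper87.NSL.Cla

/-! ROW CAR: one literal K-label which carries optimal forms of all degrees at all rational levels, and of all
projections of the point. -/

set_option autoImplicit false

namespace Pool.Agent.Helper66.NJ

open Finset Filter Topology Matrix Pool.Agent.Helper69.RK Pool.Agent.Helper31.EC Pool.Agent.Helper31.EC.Sp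
open Pool.Agent.Helper40.EL Pool.Agent.Helper89.LX Pool.Agent.Helper84.MT
open Pool.Agent.Helper29.MX
open Pool.Agent.Helper36.AM (HQ volO STO DGRu STu MCl)
open Pool.Agent.Helper3.LF (Mon)
open Pool.Agent.Helper87.NSL
open Pool.Agent.Helper17.KL (costP_of_optK)
open Pool.Agent.Helper52.SL (untF tnF untL tnL nul_trn)
open Pool.Agent.Helper3.NJ (klb_trn ofZ_leak_trn)
open Pool.Agent.Helper87.NJ (Lvl LvC Fuf ROW_CAR)

noncomputable section

variable {S T : Sp} {M N D g r v : ℕ} {E : ℕ → ℕ} {ι κ : Type}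

/-- labels of the truncation as labels of the system: the other direction of helper3's `klb_trn` -/
theorem dmf_untrn {s : MSys S M E ι} {R W : Rsl S} {b : ℝ} {h0 : 0 < b} {h1 : b ≤ 1}
    (h : (Lab.ofZ (S := S.chg S.tr b h0) W).DMf (cndR (s.trn b h0 h1) R 0)) : (Lab.ofZ W).DMf (cndR s R 0) := by
  intro i
  have h2 := nul_trn.mp (h i)
  have e3 : (fun k => ((Lab.ofZ (S := S.chg S.tr b h0) W) k).leak (cndR (s.trn b h0 h1) R 0 i k)) =
      fun k => ((Lab.ofZ W) k).leak (cndR s R 0 i k) := funext fun k => ofZ_leak_trn R W h1 i k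
  rw [← e3]
  exact h2

theorem kn1_chg {F : FSp} {β : Type} {W : Setoid F.Ω} {G : F.Ω → β} (b : ℝ) (h0 : 0 < b)
    (h : Kn1 (F := F) W G) : Kn1 (F := F.chg ⊤ b h0) W G :=
  fun ω ω' h1 h2 h3 h4 => h ω ω' h1 h2 h3 h4.2

theorem kn1_unchg {F : FSp} {β : Type} {W : Setoid F.Ω} {G : F.Ω → β} (b : ℝ) (h0 : 0 < b)
    (h : Kn1 (F := F.chg ⊤ b h0) W G) : Kn1 (F := F) W G :=
  fun ω ω' h1 h2 h3 h4 => h ω ω' h1 h2 h3 ⟨trivial, h4⟩

/-- JOIN of a countable family of literal K-labels -/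
theorem exists_joinA {κ : Type} [Countable κ] {A : κ → Part S} {R : ∀ k, Setoid (S.F k).Ω} {α : Type} [Countable α]
    [Nonempty α] (Z : α → ∀ k, Setoid (S.F k).Ω) (hR : ∀ a, ∀ᶠ k in UF, R k ⊓ (S.F k).Z ≤ Z a k)
    (hA : ∀ a, (Lab.ofZ (Z a)).DMf A) :
    ∃ W : ∀ k, Setoid (S.F k).Ω, (∀ᶠ k in UF, R k ⊓ (S.F k).Z ≤ W k) ∧ (Lab.ofZ W).DMf A ∧
      ∀ a, ∀ᶠ k in UF, W k ≤ Z a k := by
  obtain ⟨f, hf⟩ := exists_surjective_nat α
  obtain ⟨W, w1, w2, w3⟩ := exists_join (A := A) (fun j => Z (f j)) (fun j => hR (f j)) fun j => hA (f j)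
  refine ⟨W, w1, w2, fun a => ?_⟩
  obtain ⟨j, rfl⟩ := hf a
  exact w3 j

/-- the rational levels -/
abbrev RL : Type := {b : ℚ // (0 : ℝ) < b ∧ (b : ℝ) ≤ 1}

/-- A LITERAL OPTIMAL FORM of the level `b` over the label `W` -/
def OpL (s : MSys S M E ι) (R W : Rsl S) (D : ℕ) (b : ℝ) (h0 : 0 < b) (h1 : b ≤ 1)
    (G : ∀ k, (S.F k).Ω → Matrix (Mon M D) (Mon M D) ℝ) : Prop :=
  (∀ᶠ k in UF, Kn1 (F := S.F k) (W k) (G k)) ∧
    KOp (s.trn b h0 h1) R D 0 (fun k => zFD (F := (S.chg S.tr b h0).F k) (W k) (G k))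

/-- a literal optimal form of the level `b` over a finer K-label -/
theorem OpL.fin [Finite ι] {s : MSys S M E ι} {R Z W : Rsl S} {b : ℝ} {h0 : 0 < b} {h1 : b ≤ 1}
    {G : ∀ k, (S.F k).Ω → Matrix (Mon M D) (Mon M D) ℝ} (h : OpL s R Z D b h0 h1 G) (hW : ∀ᶠ k in UF, W k ≤ Z k)
    (hL : KLb s R 0 (Lab.ofZ W)) (hR : ∀ᶠ k in UF, R k ⊓ (S.F k).Z ≤ W k) : OpL s R W D b h0 h1 G := by
  refine ⟨by filter_upwards [h.1, hW] with k h2 h3 using h2.mono h3, ?_⟩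
  refine opt_zFD (S := S.chg S.tr b h0) (gaq (s.trn b h0 h1).Q D) (Z := Z) ?_ h.2 hW ?_ (klb_trn hL b h0 h1).1
  · filter_upwards [h.1] with k hk using kn1_chg b h0 hk
  · filter_upwards [hR] with k hk
    exact le_trans (inf_le_inf_left _ inf_le_right) hk

/-- the literal optimal form is between one and the cap and typically bounded at the point -/
theorem OpL.fmG [Finite ι] {s : MSys S M E ι} {R W : Rsl S} {b : ℝ} {h0 : 0 < b} {h1 : b ≤ 1}
    {G : ∀ k, (S.F k).Ω → Matrix (Mon M D) (Mon M D) ℝ} (h : OpL s R W D b h0 h1 G) :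
    FmG (s.trn b h0 h1).Q (fun k => zFD (F := (S.chg S.tr b h0).F k) (W k) (G k)) := FmG_of_Adf h.2.1.1

/-- the literal optimal form has the cost property, for literal points -/
theorem OpL.cost [Finite ι] {s : MSys S M E ι} {R W : Rsl S} {b : ℝ} {h0 : 0 < b} {h1 : b ≤ 1}
    {G : ∀ k, (S.F k).Ω → Matrix (Mon M D) (Mon M D) ℝ} (h : OpL s R W D b h0 h1 G) (hR : KnS R s.Q.v)
    (hED : 1 ≤ E D) : CostP (s.trn b h0 h1) D 0 (fun k => zFD (F := (S.chg S.tr b h0).F k) (W k) (G k)) := by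
  have h2 : KnS (S := S.chg S.tr b h0) R (s.trn b h0 h1).Q.v := by
    filter_upwards [hR] with k hk ω ω' a c z hr using hk ω ω' a c z.2 hr
  have h3 : KOpt (s.trn b h0 h1) (rcl (s.trn b h0 h1).Q R) D
      (fun k => zFD (F := (S.chg S.tr b h0).F k) (W k) (G k)) :=
    KOpt_congr _ (by filter_upwards [fc_rcl h2] with k hk using hk.symm) h.2
  exact costP_of_optK (s.trn b h0 h1) hED le_rfl one_pos _ (fun k => inf_le_right) h3

/-- literal optimal forms of the truncation, as labels of the system -/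
theorem exists_opL [Finite ι] (s : MSys S M E ι) (R : Rsl S) (D : ℕ) (b : ℝ) (h0 : 0 < b) (h1 : b ≤ 1) :
    ∃ (Z : Rsl S) (G : ∀ k, (S.F k).Ω → Matrix (Mon M D) (Mon M D) ℝ), (∀ᶠ k in UF, R k ⊓ (S.F k).Z ≤ Z k) ∧
      (Lab.ofZ Z).DMf (cndR s R 0) ∧ OpL s R Z D b h0 h1 G := by
  obtain ⟨Z, G, b1, b2, b3⟩ := exists_zFD (S := S.chg S.tr b h0) (gaq (s.trn b h0 h1).Q D)
    (cndR (s.trn b h0 h1) R 0) R
  have h4 : (Lab.ofZ (S := S.chg S.tr b h0) Z).DMf (cndR (s.trn b h0 h1) R 0) := by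
    have h5 := Gau.AdfK.dm (gaq (s.trn b h0 h1).Q D) b3.1
    exact h5
  refine ⟨Z, G, ?_, dmf_untrn h4, Eventually.of_forall fun k => kn1_unchg b h0 (b2 k), b3⟩
  filter_upwards [b1] with k hk
  refine le_trans ?_ hk
  exact inf_le_inf_left _ (le_inf le_top le_rfl)

/-- **CARRIER** of the optimal literal K-forms of all degrees at all rational levels, and of the optimal K-forms of
countably many other families of the system -/
theorem exists_car [Finite ι] (s : MSys S M E ι) (R : Rsl S) {α : Type} [Countable α] (J : α → Type)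
    [∀ a, Fintype (J a)] [∀ a, DecidableEq (J a)] (Φ : ∀ a, Gau S (J a)) :
    ∃ W : Rsl S, (∀ᶠ k in UF, R k ⊓ (S.F k).Z ≤ W k) ∧ KLb s R 0 (Lab.ofZ W) ∧
      (∀ (b : ℚ) (h0 : (0 : ℝ) < b) (h1 : (b : ℝ) ≤ 1) (D : ℕ), ∃ G, OpL s R W D b h0 h1 G) ∧
      ∀ a, ∃ G : ∀ k, (S.F k).Ω → Matrix (J a) (J a) ℝ, (∀ᶠ k in UF, Kn1 (W k) (G k)) ∧
        (Φ a).OptfK (LC.kz fun k => fc (R k)) (cndR s R 0) (fun k => zFD (W k) (G k)) := by
  choose Z1 G1 a1 a2 a3 using fun a => exists_zFD (Φ a) (cndR s R 0) R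
  choose Z2 G2 b1 b2 b3 using fun x : RL × ℕ => exists_opL s R x.2 (x.1.1 : ℝ) x.1.2.1 x.1.2.2
  have : Nonempty (α ⊕ (RL × ℕ)) := ⟨Sum.inr (⟨1, by norm_num, by norm_num⟩, 0)⟩
  have hL : ∀ x : α ⊕ (RL × ℕ), ∀ᶠ k in UF, R k ⊓ (S.F k).Z ≤ Sum.elim Z1 Z2 x k := by
    rintro (a | x)
    · exact a1 a
    · exact b1 x
  have hM : ∀ x : α ⊕ (RL × ℕ), (Lab.ofZ (Sum.elim Z1 Z2 x)).DMf (cndR s R 0) := by
    rintro (a | x)
    · show (Lab.ofZ (Z1 a)).DMf (cndR s R 0)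
      have h5 := Gau.AdfK.dm (Φ a) (a3 a).1
      exact h5
    · show (Lab.ofZ (Z2 x)).DMf (cndR s R 0)
      exact b2 x
  obtain ⟨W, w1, w2, w3⟩ := exists_joinA (S := S) (A := cndR s R 0) (R := R) (fun x => Sum.elim Z1 Z2 x) hL hM
  have hK : KLb s R 0 (Lab.ofZ W) := ⟨w2, Pool.Agent.Helper49.KL.kz_ofZ w1⟩
  refine ⟨W, w1, hK, fun b h0 h1 D => ?_, fun a => ⟨G1 a, ?_, ?_⟩⟩
  · exact ⟨G2 (⟨b, h0, h1⟩, D), (b3 (⟨b, h0, h1⟩, D)).fin (w3 (Sum.inr (⟨b, h0, h1⟩, D))) hK w1⟩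
  · filter_upwards [w3 (Sum.inl a)] with k hk using (a2 a k).mono hk
  · exact opt_zFD (Φ a) (Eventually.of_forall (a2 a)) (a3 a) (w3 (Sum.inl a)) w1 w2

/-- a level of the definition of helper87 -/
theorem OpL.lvl [Finite (Fin r)] {s : MSys S N (lin g) (Fin r)} {R W : Rsl S} {b : ℝ} {h0 : 0 < b} {h1 : b ≤ 1}
    {G : ∀ k, (S.F k).Ω → Matrix (Mon N D) (Mon N D) ℝ} (h : OpL s R W D b h0 h1 G) (hR : KnS R s.Q.v)
    (hED : 1 ≤ lin g D) (hF : vol (s.trn b h0 h1).Q D (fun k => zFD (F := (S.chg S.tr b h0).F k) (W k) (G k)) ≤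
      H (up1 (Lab.ofZ (S := S.chg S.tr b h0) W) ((s.trn b h0 h1).Q.dg 1))) : Lvl W s.Q g D b h0 G := by
  refine ⟨r, s.trn b h0 h1, rfl, ?_, h.cost hR hED, h.fmG, hF⟩
  filter_upwards [h.1] with k hk using kn1_chg b h0 hk

/-- **ROW CAR**: the literal systems with `v` unit directions have a literal K-label `W` of the visible cells, which
carries, for all degrees `D ≥ D₁` and all rational levels, optimal forms; they are full over `W`; `D₁` depends on `g`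
only -/
theorem row_car (N : ℕ) : ROW_CAR N := by
  intro A hA hst v hs g hg
  obtain ⟨D₁, hD⟩ := Pool.Agent.Helper3.NJ.fulb_lit hA hst hs g
  obtain ⟨D₂, hD2⟩ := Pool.Agent.Helper3.MX.stvg hA hst hs g
  refine ⟨max (max D₁ D₂) 1, le_max_right _ _, fun S r s _ h hL => ?_⟩
  obtain ⟨W, w1, w2, w3, w4⟩ := exists_car s (vis s.Q) (α := Unit) (fun _ => Mon N (max (max D₁ D₂) 1))
    (fun _ => gaq s.Q (max (max D₁ D₂) 1))
  refine ⟨W, w1, fun i => w2.1 (some i), fun D hD' b h0 h1 => ?_, ?_⟩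
  · obtain ⟨G, hG⟩ := w3 b h0 h1 D
    have h3 : 1 ≤ lin g D := Nat.mul_pos hg (Nat.succ_pos D)
    exact ⟨G, hG.lvl hL h3 (hD D ((le_max_left _ _).trans ((le_max_left _ _).trans hD')) S r s h hL W w2 b h0 h1 _ hG.2)⟩
  · obtain ⟨G, g1, g2⟩ := w4 ()
    exact ⟨G, g1, FmG_of_Adf g2.1.1, hD2 _ ((le_max_right _ _).trans (le_max_left _ _)) S r s h _ g2 _ w2⟩

end

end Pool.Agent.Helper66.NJ
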